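import Pool.Agent.K4H58.XK.Spec

open Finset

namespace Pool.Agent.K4H58.XK

lemma stepF (k i : ℕ) : (k + i + 1).choose (i + 3) * (i + 3) = (k + i + 1) * (k + i).choose (i + 2) :=
  (Nat.add_one_mul_choose_eq (k + i) (i + 2)).symm

/-- the step of the induction with a constant -/
lemma step_c (k i c : ℕ) (hk : 1 ≤ k) (h : c * (i + 3) * (k + i).choose (i + 2) ≤ (2 * k + i).choose (i + 2)) :
    c * (i + 4) * (k + i + 1).choose (i + 3) ≤ (2 * k + i + 1).choose (i + 3) := by
  have h1 := stepF k i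
  have h2 := stepF (2 * k) i
  apply Nat.le_of_mul_le_mul_right _ (show 0 < i + 3 by omega)
  rw [h2, mul_assoc (c * (i + 4)), h1]
  have h3 : (i + 4) * (k + i + 1) ≤ (i + 3) * (2 * k + i + 1) := by
    obtain ⟨k', rfl⟩ : ∃ k', k = k' + 1 := ⟨k - 1, by omega⟩
    nlinarith [Nat.zero_le (i * k'), Nat.zero_le i, Nat.zero_le k']
  calc c * (i + 4) * ((k + i + 1) * (k + i).choose (i + 2)) =
        c * (k + i).choose (i + 2) * ((i + 4) * (k + i + 1)) := by ring
    _ ≤ c * (k + i).choose (i + 2) * ((i + 3) * (2 * k + i + 1)) := Nat.mul_le_mul_left _ h3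
    _ = (2 * k + i + 1) * (c * (i + 3) * (k + i).choose (i + 2)) := by ring
    _ ≤ (2 * k + i + 1) * (2 * k + i).choose (i + 2) := Nat.mul_le_mul_left _ h

lemma choose_two_ge (k : ℕ) : 4 * k.choose 2 ≤ (2 * k).choose 2 := by
  rcases Nat.eq_zero_or_pos k with h | h
  · subst h; simp
  · have h1 := Nat.choose_two_right k
    have h2 := Nat.choose_two_right (2 * k)
    have h3 : k * (k - 1) % 2 = 0 := Nat.even_iff.1 (Nat.even_mul_pred_self k)
    have h4 : (2 * k) * (2 * k - 1) % 2 = 0 := Nat.even_iff.1 (Nat.even_mul_pred_self (2 * k))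
    have h5 : 2 * k.choose 2 = k * (k - 1) := by omega
    have h6 : 2 * (2 * k).choose 2 = (2 * k) * (2 * k - 1) := by omega
    obtain ⟨t, rfl⟩ : ∃ t, k = t + 1 := ⟨k - 1, by omega⟩
    have e1 : t + 1 - 1 = t := by omega
    have e2 : 2 * (t + 1) - 1 = 2 * t + 1 := by omega
    rw [e1] at h5
    rw [e2] at h6
    nlinarith

/-- the exponential growth -/
lemma exp_low (k : ℕ) : ∀ i, 2 * i ≤ k → 4 * 5 ^ i * (k + i).choose (i + 2) ≤ 3 ^ i * (2 * k + i).choose (i + 2) := by
  intro i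
  induction i with
  | zero => intro _; simpa using choose_two_ge k
  | succ i ih =>
    intro hi
    have h := ih (by omega)
    have h1 := stepF k i
    have h2 := stepF (2 * k) i
    show 4 * 5 ^ (i + 1) * (k + i + 1).choose (i + 3) ≤ 3 ^ (i + 1) * (2 * k + i + 1).choose (i + 3)
    apply Nat.le_of_mul_le_mul_right _ (show 0 < i + 3 by omega)
    rw [mul_assoc _ _ (i + 3), h1, mul_assoc _ _ (i + 3), h2]
    have h3 : 5 * (k + i + 1) ≤ 3 * (2 * k + i + 1) := by omega
    calc 4 * 5 ^ (i + 1) * ((k + i + 1) * (k + i).choose (i + 2)) =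
          (5 * (k + i + 1)) * (4 * 5 ^ i * (k + i).choose (i + 2)) := by rw [pow_succ]; ring
      _ ≤ (3 * (2 * k + i + 1)) * (3 ^ i * (2 * k + i).choose (i + 2)) := Nat.mul_le_mul h3 h
      _ = 3 ^ (i + 1) * ((2 * k + i + 1) * (2 * k + i).choose (i + 2)) := by rw [pow_succ]; ring

lemma poly_exp : ∀ i, (2 * (i + 8) + 5) * (i + 8 + 3) * 3 ^ (i + 8) ≤ 4 * 5 ^ (i + 8) := by
  intro i
  induction i with
  | zero => norm_num
  | succ i ih =>
    have h3 : 3 * ((2 * (i + 1 + 8) + 5) * (i + 1 + 8 + 3)) ≤ 5 * ((2 * (i + 8) + 5) * (i + 8 + 3)) := by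
      nlinarith [Nat.zero_le (i * i), Nat.zero_le i]
    calc (2 * (i + 1 + 8) + 5) * (i + 1 + 8 + 3) * 3 ^ (i + 1 + 8) =
          3 * ((2 * (i + 1 + 8) + 5) * (i + 1 + 8 + 3)) * 3 ^ (i + 8) := by
          rw [show i + 1 + 8 = (i + 8) + 1 by ring, pow_succ]; ring
      _ ≤ 5 * ((2 * (i + 8) + 5) * (i + 8 + 3)) * 3 ^ (i + 8) := Nat.mul_le_mul_right _ h3
      _ = 5 * ((2 * (i + 8) + 5) * (i + 8 + 3) * 3 ^ (i + 8)) := by ring
      _ ≤ 5 * (4 * 5 ^ (i + 8)) := Nat.mul_le_mul_left _ ih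
      _ = 4 * 5 ^ (i + 1 + 8) := by rw [show i + 1 + 8 = (i + 8) + 1 by ring, pow_succ]; ring

/-- case (a) -/
lemma caseA (k : ℕ) (hk : 1 ≤ k) : ∀ i, (i + 3) * (k + i).choose (i + 2) ≤ (2 * k + i).choose (i + 2) := by
  intro i
  induction i with
  | zero =>
    have := choose_two_ge k
    show (0 + 3) * (k + 0).choose (0 + 2) ≤ (2 * k + 0).choose (0 + 2)
    simp only [Nat.add_zero, Nat.zero_add]
    omega
  | succ i ih =>
    have h := step_c k i 1 hk (by rw [Nat.one_mul]; exact ih)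
    rw [Nat.one_mul] at h
    exact h

/-- case (b) -/
lemma caseB (k : ℕ) (hk : 19 ≤ k) (i : ℕ) (hi : k ≤ 2 * (i + 2)) :
    (k + 1) * (i + 3) * (k + i).choose (i + 2) ≤ (2 * k + i).choose (i + 2) := by
  set i₀ := (k + 1) / 2 - 2 with hi₀
  have h0 : 8 ≤ i₀ := by omega
  have h1 : 2 * i₀ ≤ k := by omega
  have h2 : k ≤ 2 * (i₀ + 2) := by omega
  have hle : i₀ ≤ i := by omega
  have hb := exp_low k i₀ h1
  have hp := poly_exp (i₀ - 8)
  rw [show i₀ - 8 + 8 = i₀ by omega] at hp
  have base : (k + 1) * (i₀ + 3) * (k + i₀).choose (i₀ + 2) ≤ (2 * k + i₀).choose (i₀ + 2) := by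
    apply Nat.le_of_mul_le_mul_left _ (show 0 < 3 ^ i₀ by positivity)
    calc 3 ^ i₀ * ((k + 1) * (i₀ + 3) * (k + i₀).choose (i₀ + 2)) =
          (k + 1) * ((i₀ + 3) * 3 ^ i₀ * (k + i₀).choose (i₀ + 2)) := by ring
      _ ≤ (2 * i₀ + 5) * ((i₀ + 3) * 3 ^ i₀ * (k + i₀).choose (i₀ + 2)) := Nat.mul_le_mul_right _ (by omega)
      _ = (2 * i₀ + 5) * (i₀ + 3) * 3 ^ i₀ * (k + i₀).choose (i₀ + 2) := by ring
      _ ≤ 4 * 5 ^ i₀ * (k + i₀).choose (i₀ + 2) := Nat.mul_le_mul_right _ hp
      _ ≤ _ := hb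
  clear_value i₀
  induction i, hle using Nat.le_induction with
  | base => exact base
  | succ i hi' ih =>
    have h := step_c k i (k + 1) (by omega) (ih (by omega))
    exact h

/-- decreasing the upper entries -/
lemma dec_one {u v n c : ℕ} (huv : u ≤ v) (h : c * (u + 1).choose n ≤ (v + 1).choose n) :
    c * u.choose n ≤ v.choose n := by
  have h1 := Nat.choose_mul_succ_eq u n
  have h2 := Nat.choose_mul_succ_eq v n
  have h3 : (u + 1 - n) * (v + 1) ≤ (v + 1 - n) * (u + 1) := by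
    rcases Nat.lt_or_ge (u + 1) n with h4 | h4
    · rw [show u + 1 - n = 0 by omega, Nat.zero_mul]; exact Nat.zero_le _
    · obtain ⟨a, ha⟩ : ∃ a, u + 1 = n + a := ⟨u + 1 - n, by omega⟩
      obtain ⟨e, he⟩ : ∃ e, v + 1 = n + a + e := ⟨v + 1 - (n + a), by omega⟩
      rw [he, ha, show n + a - n = a by omega, show n + a + e - n = a + e by omega]
      nlinarith [Nat.zero_le (n * e), Nat.zero_le (a * e)]
  apply Nat.le_of_mul_le_mul_right _ (show 0 < (u + 1) * (v + 1) by positivity)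
  calc c * u.choose n * ((u + 1) * (v + 1)) = c * (u.choose n * (u + 1)) * (v + 1) := by ring
    _ = c * ((u + 1).choose n * (u + 1 - n)) * (v + 1) := by rw [h1]
    _ = (c * (u + 1).choose n) * ((u + 1 - n) * (v + 1)) := by ring
    _ ≤ (v + 1).choose n * ((v + 1 - n) * (u + 1)) := Nat.mul_le_mul h h3
    _ = ((v + 1).choose n * (v + 1 - n)) * (u + 1) := by ring
    _ = (v.choose n * (v + 1)) * (u + 1) := by rw [h2]
    _ = v.choose n * ((u + 1) * (v + 1)) := by ring

lemma dec_many {n c : ℕ} : ∀ (e u v : ℕ), u ≤ v → c * (u + e).choose n ≤ (v + e).choose n →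
    c * u.choose n ≤ v.choose n := by
  intro e
  induction e with
  | zero => intro u v _ h; simpa using h
  | succ e ih =>
    intro u v huv h
    apply ih u v huv
    exact dec_one (by omega) h

/-- Vandermonde -/
lemma vand_le (k n s : ℕ) (hs : s ≤ n) :
    ∑ j ∈ Icc s n, k.choose j * (n - s).choose (j - s) ≤ (k + (n - s)).choose n := by
  rw [Nat.add_choose_eq, Finset.Nat.sum_antidiagonal_eq_sum_range_succ (fun i j => k.choose i * (n - s).choose j)]
  have h1 : ∑ j ∈ Icc s n, k.choose j * (n - s).choose (j - s) = ∑ j ∈ Icc s n, k.choose j * (n - s).choose (n - j) := by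
    apply Finset.sum_congr rfl
    intro j hj
    rw [mem_Icc] at hj
    rw [Nat.choose_symm_of_eq_add (show n - s = (j - s) + (n - j) by omega)]
  rw [h1]
  apply Finset.sum_le_sum_of_subset
  intro j hj
  rw [mem_Icc] at hj
  rw [mem_range]
  omega

/-- PIECE G1: `Good k` for all `k ≥ 19`. -/
theorem good_large {k : ℕ} (hk : 19 ≤ k) : Good k := by
  intro s b m hs hb hm hmsb
  set n := k - b with hn
  have hbk : b ≤ k := by omega
  have hkb : k = n + b := by omega
  have hsn : s ≤ n := by omega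
  have hmn : m ≤ n + 1 := by omega
  set c0 : ℕ := if k ≤ 2 * n then k else 0 with hc0
  have hsum : ∑ j ∈ Icc s n, (1 + chL k j) * (k.choose j * (k - s - b).choose (j - s)) ≤
      (1 + c0) * (k + (n - s)).choose n := by
    calc ∑ j ∈ Icc s n, (1 + chL k j) * (k.choose j * (k - s - b).choose (j - s)) ≤
          ∑ j ∈ Icc s n, (1 + c0) * (k.choose j * (n - s).choose (j - s)) := by
          apply Finset.sum_le_sum
          intro j hj
          rw [mem_Icc] at hj
          rw [show k - s - b = n - s by omega]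
          apply Nat.mul_le_mul_right
          have : chL k j ≤ c0 := by
            unfold chL
            rw [hc0]
            split_ifs <;> omega
          omega
      _ = (1 + c0) * ∑ j ∈ Icc s n, k.choose j * (n - s).choose (j - s) := by rw [Finset.mul_sum]
      _ ≤ _ := Nat.mul_le_mul_left _ (vand_le k n s hsn)
  obtain ⟨i, hi⟩ : ∃ i, n = i + 2 := ⟨n - 2, by omega⟩
  have hbase : (n + 1) * (1 + c0) * (k + i).choose n ≤ (2 * k + i).choose n := by
    rw [hi]
    by_cases h : k ≤ 2 * n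
    · rw [hc0, if_pos h]
      have := caseB k hk i (by omega)
      calc (i + 2 + 1) * (1 + k) * (k + i).choose (i + 2) = (k + 1) * (i + 3) * (k + i).choose (i + 2) := by ring
        _ ≤ _ := this
    · rw [hc0, if_neg h]
      have := caseA k (by omega) i
      calc (i + 2 + 1) * (1 + 0) * (k + i).choose (i + 2) = (i + 3) * (k + i).choose (i + 2) := by ring
        _ ≤ _ := this
  have hfin : (n + 1) * (1 + c0) * (k + (n - s)).choose n ≤ (2 * k + (n - s)).choose n := by
    apply dec_many (s - 2) (k + (n - s)) (2 * k + (n - s)) (by omega)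
    rw [show k + (n - s) + (s - 2) = k + i by omega, show 2 * k + (n - s) + (s - 2) = 2 * k + i by omega]
    exact hbase
  rw [show 3 * k - s - b = 2 * k + (n - s) by omega]
  calc m * ∑ j ∈ Icc s n, (1 + chL k j) * (k.choose j * (k - s - b).choose (j - s)) ≤
        (n + 1) * ((1 + c0) * (k + (n - s)).choose n) := Nat.mul_le_mul hmn hsum
    _ = (n + 1) * (1 + c0) * (k + (n - s)).choose n := by ring
    _ ≤ _ := hfin

end Pool.Agent.K4H58.XK
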